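import Pool.Agent.W264.Yor.Final

set_option autoImplicit false

/-!
# Yorioka ideals: additivity and cofinality do not change under iterated exponentials

ZFC proves `add(I_f) = add(I_id)` and `cof(I_f) = cof(I_id)` for every strictly increasing `f`
which is bounded by an iterated exponential, although `I_f ≠ I_id` for instance for `f n = 2 ^ n`.

Idea. Through the additivity of one ideal `I_g` one can capture functions with values below
`2 ^ (g (2 ^ a n) - a n)` by slaloms of width about `2 ^ (a n * ω n)`, where `ω` tends to infinity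
as slowly as we like (Baire category argument inside a closed set of positive measure avoiding a
given member of `I_g`). The position of the value in the slalom is a new function with much smaller
values, to which the step can be applied again. A fixed finite number of steps, together with
domination (also obtained from `I_g`), suffices to capture codes for the members of `I_f`.
-/

namespace Pool.Agent.Results.MP_7d369a_lc.IteratedExp

open Cardinal Filter

/-- The finite binary sequence `s` is an initial segment of `z`. -/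
def IsInitial (s : List Bool) (z : ℕ → Bool) : Prop :=
  ∀ (i : ℕ) (h : i < s.length), s[i] = z i

/-- `[σ]_∞`: the points having `σ n` as an initial segment for infinitely many `n`. -/
def LimInf (σ : ℕ → List Bool) : Set (ℕ → Bool) :=
  {z | {n : ℕ | IsInitial (σ n) z}.Infinite}

/-- `x ≪ y`: for every `k` there is `m` with `x (i ^ k) ≤ y i` for all `i ≥ m`. -/
def FarBelow (x y : ℕ → ℕ) : Prop := ∀ k : ℕ, ∃ m : ℕ, ∀ i : ℕ, m ≤ i → x (i ^ k) ≤ y i

/-- The Yorioka ideal of `f`. -/
def Yorioka (f : ℕ → ℕ) : Set (Set (ℕ → Bool)) :=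
  {A | ∃ σ : ℕ → List Bool, FarBelow f (fun n => (σ n).length) ∧ A ⊆ LimInf σ}

/-- The additivity of `J`: the least cardinality of a subfamily of `J` whose union is not
in `J`. -/
noncomputable def addOf (J : Set (Set (ℕ → Bool))) : Cardinal.{0} :=
  sInf {κ | ∃ F : Set (Set (ℕ → Bool)), F ⊆ J ∧ ⋃₀ F ∉ J ∧ #F = κ}

/-- The cofinality of `J`: the least cardinality of a subfamily `F` of `J` such that every member
of `J` is contained in a member of `F`. -/
noncomputable def cofOf (J : Set (Set (ℕ → Bool))) : Cardinal.{0} :=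
  sInf {κ | ∃ F : Set (Set (ℕ → Bool)), F ⊆ J ∧ (∀ A ∈ J, ∃ B ∈ F, A ⊆ B) ∧ #F = κ}

theorem yorioka_eq (f : ℕ → ℕ) : Yorioka f = Pool.Agent.H31R3.Yor.I f := by
  ext A
  constructor
  · rintro ⟨σ, h1, h2⟩
    refine ⟨σ, fun k => Filter.eventually_atTop.2 (h1 k), fun z hz => ?_⟩
    exact Nat.frequently_atTop_iff_infinite.2 (h2 hz)
  · rintro ⟨σ, h1, h2⟩
    refine ⟨σ, fun k => Filter.eventually_atTop.1 (h1 k), fun z hz => ?_⟩
    exact Nat.frequently_atTop_iff_infinite.1 (h2 hz)

/-- (1) The additivity of `I_g` is at most that of `I_f`, and the cofinality of `I_f` is at most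
that of `I_g`, if `f` is eventually bounded by a finite iterate of `m ↦ g (2 ^ m)`, applied to `g`.
(2) `I_f` and `I_id` have the same additivity and the same cofinality, if `f` is eventually bounded
by a finite iterate of `m ↦ 2 ^ m`. (3) This covers ideals different from `I_id`, for example
that of `f n = 2 ^ n`. -/
theorem result :
    (∀ f g : ℕ → ℕ, StrictMono f → StrictMono g →
      (∃ j : ℕ, ∀ᶠ n in atTop, f n ≤ (fun m => g (2 ^ m))^[j] (g n)) →
      addOf (Yorioka g) ≤ addOf (Yorioka f) ∧ cofOf (Yorioka f) ≤ cofOf (Yorioka g)) ∧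
    (∀ f : ℕ → ℕ, StrictMono f → (∃ j : ℕ, ∀ᶠ n in atTop, f n ≤ (fun m => 2 ^ m)^[j] n) →
      addOf (Yorioka f) = addOf (Yorioka (fun n => n)) ∧
      cofOf (Yorioka f) = cofOf (Yorioka (fun n => n))) ∧
    Yorioka (fun n => 2 ^ n) ≠ Yorioka (fun n => n) := by
  have hadd : ∀ f, addOf (Yorioka f) = Pool.Agent.H31R3.Yor.add (Pool.Agent.H31R3.Yor.I f) := by
    intro f; rw [yorioka_eq]; rfl
  have hcof : ∀ f, cofOf (Yorioka f) = Pool.Agent.H31R3.Yor.cof (Pool.Agent.H31R3.Yor.I f) := by
    intro f; rw [yorioka_eq]; rfl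
  refine ⟨?_, ?_, ?_⟩
  · rintro f g hf hg ⟨j, hj⟩
    rw [hadd, hadd, hcof, hcof]
    exact ⟨Pool.Agent.W264.Yor.add_le_add hf hg j hj, Pool.Agent.W264.Yor.cof_le_cof hf hg j hj⟩
  · rintro f hf ⟨j, hj⟩
    rw [hadd, hadd, hcof, hcof]
    exact ⟨Pool.Agent.W264.Yor.add_eq_id hf j hj, Pool.Agent.W264.Yor.cof_eq_id hf j hj⟩
  · rw [yorioka_eq, yorioka_eq]
    exact Pool.Agent.W264.Yor.I_two_pow_ne

end Pool.Agent.Results.MP_7d369a_lc.IteratedExp
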