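import Pool.Agent.W264.Yor.Final

set_option autoImplicit false

/-!
# Yorioka ideals: the universal form of the question

All Yorioka ideals have the additivity (the cofinality) of `I_id` if and only if the additivity
(the cofinality) of `I_id` is that of the null ideal. So a model with `add(N) < add(I_id)` is a
model in which `add(I_f) ≠ add(I_id)` for some `f`.
-/

namespace Pool.Agent.Results.MP_7d369a_lc.UniversalIff

open Cardinal Filter MeasureTheory
open scoped ENNReal

/-- The finite binary sequence `s` is an initial segment of `z`. -/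
def IsInitial (s : List Bool) (z : ℕ → Bool) : Prop :=
  ∀ (i : ℕ) (h : i < s.length), s[i] = z i

/-- `[σ]_∞`: the points having `σ n` as an initial segment for infinitely many `n`. -/
def LimInf (σ : ℕ → List Bool) : Set (ℕ → Bool) :=
  {z | {n : ℕ | IsInitial (σ n) z}.Infinite}

/-- `x ≪ y`: for every `k` there is `m` with `x (i ^ k) ≤ y i` for all `i ≥ m`. -/
def FarBelow (x y : ℕ → ℕ) : Prop := ∀ k : ℕ, ∃ m : ℕ, ∀ i : ℕ, m ≤ i → x (i ^ k) ≤ y i

/-- The Yorioka ideal of `f`. -/
def Yorioka (f : ℕ → ℕ) : Set (Set (ℕ → Bool)) :=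
  {A | ∃ σ : ℕ → List Bool, FarBelow f (fun n => (σ n).length) ∧ A ⊆ LimInf σ}

/-- The fair coin measure on `{false, true}`. -/
noncomputable def fairCoin : Measure Bool :=
  (2⁻¹ : ℝ≥0∞) • Measure.dirac false + (2⁻¹ : ℝ≥0∞) • Measure.dirac true

/-- The ideal of Lebesgue null sets of the Cantor space: the sets of (outer) measure zero for the
product of countably many fair coins. -/
def NullIdeal : Set (Set (ℕ → Bool)) :=
  {A | (Measure.infinitePi (fun _ : ℕ => fairCoin)) A = 0}

/-- The additivity of `J`: the least cardinality of a subfamily of `J` whose union is not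
in `J`. -/
noncomputable def addOf (J : Set (Set (ℕ → Bool))) : Cardinal.{0} :=
  sInf {κ | ∃ F : Set (Set (ℕ → Bool)), F ⊆ J ∧ ⋃₀ F ∉ J ∧ #F = κ}

/-- The cofinality of `J`: the least cardinality of a subfamily `F` of `J` such that every member
of `J` is contained in a member of `F`. -/
noncomputable def cofOf (J : Set (Set (ℕ → Bool))) : Cardinal.{0} :=
  sInf {κ | ∃ F : Set (Set (ℕ → Bool)), F ⊆ J ∧ (∀ A ∈ J, ∃ B ∈ F, A ⊆ B) ∧ #F = κ}

theorem yorioka_eq (f : ℕ → ℕ) : Yorioka f = Pool.Agent.H31R3.Yor.I f := by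
  ext A
  constructor
  · rintro ⟨σ, h1, h2⟩
    refine ⟨σ, fun k => Filter.eventually_atTop.2 (h1 k), fun z hz => ?_⟩
    exact Nat.frequently_atTop_iff_infinite.2 (h2 hz)
  · rintro ⟨σ, h1, h2⟩
    refine ⟨σ, fun k => Filter.eventually_atTop.1 (h1 k), fun z hz => ?_⟩
    exact Nat.frequently_atTop_iff_infinite.1 (h2 hz)

theorem result :
    ((∀ f : ℕ → ℕ, StrictMono f → addOf (Yorioka f) = addOf (Yorioka (fun n => n))) ↔
      addOf (Yorioka (fun n => n)) = addOf NullIdeal) ∧
    ((∀ f : ℕ → ℕ, StrictMono f → cofOf (Yorioka f) = cofOf (Yorioka (fun n => n))) ↔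
      cofOf (Yorioka (fun n => n)) = cofOf NullIdeal) := by
  have hadd : ∀ f, addOf (Yorioka f) = Pool.Agent.H31R3.Yor.add (Pool.Agent.H31R3.Yor.I f) := by
    intro f; rw [yorioka_eq]; rfl
  have hcof : ∀ f, cofOf (Yorioka f) = Pool.Agent.H31R3.Yor.cof (Pool.Agent.H31R3.Yor.I f) := by
    intro f; rw [yorioka_eq]; rfl
  have hN1 : addOf NullIdeal = Pool.Agent.H31R3.Yor.add Pool.Agent.H31R3.Yor.Nul := rfl
  have hN2 : cofOf NullIdeal = Pool.Agent.H31R3.Yor.cof Pool.Agent.H31R3.Yor.Nul := rfl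
  simp only [hadd, hcof, hN1, hN2]
  exact ⟨Pool.Agent.W264.Yor.all_add_iff, Pool.Agent.W264.Yor.all_cof_iff⟩

end Pool.Agent.Results.MP_7d369a_lc.UniversalIff
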